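import Mathlib
import Pool.Agent.U269.StarD

/-! # Starshapedness from clear visibility of locally non-convex points, all dimensions

A compact connected set `E ⊆ ℝ^d` such that any `d + 1` locally non-convex points of `E` are
clearly visible from one point of `E` is starshaped. -/

set_option autoImplicit false

namespace Pool.Agent.Results.MP_ad2f8c_co.ClearVisibility

open Set Metric Topology

/-- `y` sees `x` in `E`: both are points of `E` and the closed segment is contained in `E`. -/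
def Sees {d : ℕ} (E : Set (EuclideanSpace ℝ (Fin d))) (y x : EuclideanSpace ℝ (Fin d)) : Prop :=
  y ∈ E ∧ x ∈ E ∧ segment ℝ y x ⊆ E

/-- `E` is starshaped: some point of `E` sees every point of `E`. -/
def Starshaped {d : ℕ} (E : Set (EuclideanSpace ℝ (Fin d))) : Prop :=
  ∃ y ∈ E, ∀ x ∈ E, Sees E y x

/-- `x` is a locally non-convex (LNC) point of `E`: a boundary point of `E` such that no
intersection of `E` with a ball centred at `x` is convex. -/
def IsLNC {d : ℕ} (E : Set (EuclideanSpace ℝ (Fin d))) (x : EuclideanSpace ℝ (Fin d)) : Prop :=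
  x ∈ frontier E ∧ ∀ r : ℝ, 0 < r → ¬ Convex ℝ (closedBall x r ∩ E)

/-- `x` is clearly visible from `y`: for some `r > 0`, `y` sees every point of `E` in the ball of
radius `r` centred at `x`. -/
def ClearlyVisible {d : ℕ} (E : Set (EuclideanSpace ℝ (Fin d)))
    (x y : EuclideanSpace ℝ (Fin d)) : Prop :=
  ∃ r : ℝ, 0 < r ∧ ∀ z ∈ closedBall x r ∩ E, Sees E y z

/-- Property `C_n`: any `n` LNC points of `E` (not necessarily distinct) are clearly visible from
a single point of `E`. -/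
def PropertyC {d : ℕ} (n : ℕ) (E : Set (EuclideanSpace ℝ (Fin d))) : Prop :=
  ∀ x : Fin n → EuclideanSpace ℝ (Fin d), (∀ i, IsLNC E (x i)) →
    ∃ y ∈ E, ∀ i, ClearlyVisible E (x i) y

open Pool.Agent.U269 in
/-- For every dimension `d`, each compact connected set `E ⊆ ℝ^d` with property `C_(d+1)` is
starshaped. -/
theorem result (d : ℕ) (E : Set (EuclideanSpace ℝ (Fin d))) (hE : IsCompact E)
    (hconn : IsConnected E) (hC : PropertyC (d + 1) E) : Starshaped E := by
  classical
  set Q : Set (EuclideanSpace ℝ (Fin d)) := {x | x ∈ E ∧ ∀ r > 0, ¬ Convex ℝ (E ∩ ball x r)} with hQ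
  have hQE : Q ⊆ E := fun x hx => hx.1
  have hQL : ∀ x ∈ Q, IsLNC E x := by
    intro x hx
    refine ⟨⟨subset_closure hx.1, ?_⟩, ?_⟩
    · intro hint
      rw [mem_interior_iff_mem_nhds, Metric.mem_nhds_iff] at hint
      obtain ⟨r, hr, hrE⟩ := hint
      apply hx.2 r hr
      rw [inter_eq_self_of_subset_right hrE]
      exact convex_ball x r
    · intro r hr hc
      apply hx.2 r hr
      have : E ∩ ball x r = (closedBall x r ∩ E) ∩ ball x r := by
        ext z
        constructor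
        · rintro ⟨h1, h2⟩
          exact ⟨⟨ball_subset_closedBall h2, h1⟩, h2⟩
        · rintro ⟨⟨_, h1⟩, h2⟩
          exact ⟨h1, h2⟩
      rw [this]
      exact hc.inter (convex_ball x r)
  have hQcl : IsClosed Q := by
    rw [← isOpen_compl_iff, Metric.isOpen_iff]
    intro x hx
    by_cases hxE : x ∈ E
    · have : ∃ r > 0, Convex ℝ (E ∩ ball x r) := by
        by_contra hcon
        push Not at hcon
        exact hx ⟨hxE, hcon⟩
      obtain ⟨r, hr, hc⟩ := this
      refine ⟨r, hr, fun z hz hzQ => ?_⟩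
      have hzr : 0 < r - dist z x := by rw [mem_ball] at hz; linarith
      apply hzQ.2 _ hzr
      have hsub : ball z (r - dist z x) ⊆ ball x r := ball_subset_ball' (by linarith)
      have : E ∩ ball z (r - dist z x) = (E ∩ ball x r) ∩ ball z (r - dist z x) := by
        ext w
        constructor
        · rintro ⟨h1, h2⟩
          exact ⟨⟨h1, hsub h2⟩, h2⟩
        · rintro ⟨⟨h1, _⟩, h2⟩
          exact ⟨h1, h2⟩
      rw [this]
      exact hc.inter (convex_ball z _)
    · obtain ⟨r, hr, hrE⟩ := Metric.isOpen_iff.1 hE.isClosed.isOpen_compl x hxE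
      exact ⟨r, hr, fun z hz hzQ => hrE hz hzQ.1⟩
  have hQc : IsCompact Q := hE.of_isClosed_subset hQcl hQE
  have hconvQ : ∀ x ∈ E, x ∉ Q → ∃ r > 0, Convex ℝ (E ∩ ball x r) := by
    intro x hxE hx
    by_contra hcon
    push Not at hcon
    exact hx ⟨hxE, hcon⟩
  -- it suffices to find y
  suffices hkey : ∃ y : EuclideanSpace ℝ (Fin d), (Q.Nonempty → y ∈ convexHull ℝ E) ∧ (Q = ∅ → y ∈ E) ∧
      ∀ C : Set (EuclideanSpace ℝ (Fin d)), Convex ℝ C → IsClosed C → y ∈ C → IsPreconnected (E ∩ C) by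
    obtain ⟨y, hy1, hy2, hy3⟩ := hkey
    have hyE : y ∈ E := by
      rcases Q.eq_empty_or_nonempty with h | h
      · exact hy2 h
      · exact mem_of_mem_hull hy3 (hy1 h)
    refine ⟨y, hyE, fun z hz => ⟨hyE, hz, segment_of_preconnected hyE hz ?_⟩⟩
    apply hy3 _ (convex_segment y z) _ (left_mem_segment ℝ y z)
    rw [← convexHull_pair]
    exact ((Set.toFinite {y, z}).isCompact_convexHull ℝ).isClosed
  rcases Q.eq_empty_or_nonempty with hQe | hQne
  · obtain ⟨y, hy⟩ := hconn.nonempty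
    refine ⟨y, fun _ => subset_convexHull ℝ E hy, fun _ => hy, fun C hCc hCcl hyC => ?_⟩
    apply preconnected_inter hE hconn.isPreconnected _ hCc hCcl hyC
    apply local_joined (N := ∅) (δ := 1 / 2) (by norm_num) (by norm_num) hE.isClosed isOpen_empty
    · intro x hx _
      exact hconvQ x hx (by rw [hQe]; exact fun h => h)
    · intro q _ hq
      exact absurd hq (notMem_empty q)
  -- uniform radius
  have hunif : ∃ r0 > 0, ∀ f ∈ Set.pi Set.univ (fun _ : Fin (d + 1) => Q),
      ∃ p ∈ E, ∀ i, ∀ q ∈ E, q ∈ ball (f i) r0 → segment ℝ p q ⊆ E := by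
    have hcomp : IsCompact (Set.pi Set.univ (fun _ : Fin (d + 1) => Q)) :=
      isCompact_univ_pi fun _ => hQc
    refine hcomp.induction_on (p := fun S : Set (Fin (d + 1) → EuclideanSpace ℝ (Fin d)) => ∃ r0 > 0, ∀ f ∈ S,
      ∃ p ∈ E, ∀ i, ∀ q ∈ E, q ∈ ball (f i) r0 → segment ℝ p q ⊆ E) ?_ ?_ ?_ ?_
    · exact ⟨1, one_pos, fun f hf => absurd hf (notMem_empty f)⟩
    · rintro S T hST ⟨r0, hr0, h⟩
      exact ⟨r0, hr0, fun f hf => h f (hST hf)⟩
    · rintro S T ⟨r1, hr1, h1⟩ ⟨r2, hr2, h2⟩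
      refine ⟨min r1 r2, lt_min hr1 hr2, ?_⟩
      rintro f (hf | hf)
      · obtain ⟨p, hp, hpf⟩ := h1 f hf
        exact ⟨p, hp, fun i q hq hqr => hpf i q hq (ball_subset_ball (min_le_left _ _) hqr)⟩
      · obtain ⟨p, hp, hpf⟩ := h2 f hf
        exact ⟨p, hp, fun i q hq hqr => hpf i q hq (ball_subset_ball (min_le_right _ _) hqr)⟩
    · intro f hf
      obtain ⟨p, hp, hpf⟩ := hC f fun i => hQL _ (hf i (mem_univ i))
      choose r hr hrs using hpf
      obtain ⟨ρ, hρ, hρr⟩ : ∃ ρ > 0, ∀ i, ρ ≤ r i := by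
        obtain ⟨i0, hi0⟩ := Finite.exists_min r
        exact ⟨r i0, hr i0, hi0⟩
      refine ⟨ball f (ρ / 2), mem_nhdsWithin_of_mem_nhds (ball_mem_nhds f (by positivity)),
        ρ / 2, by positivity, fun f' hf' => ⟨p, hp, fun i q hq hqr => ?_⟩⟩
      apply (hrs i q ⟨?_, hq⟩).2.2
      rw [mem_closedBall]
      have h1 : dist (f' i) (f i) < ρ / 2 := lt_of_le_of_lt (dist_le_pi_dist f' f i) hf'
      have h2 : dist q (f' i) < ρ / 2 := hqr
      have h3 := dist_triangle q (f' i) (f i)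
      have h4 := hρr i
      linarith
  obtain ⟨r0, hr0, hunif⟩ := hunif
  set Cs : Q → Set (EuclideanSpace ℝ (Fin d)) := fun x => {p | p ∈ E ∧ ∀ q ∈ E, q ∈ ball (x : EuclideanSpace ℝ (Fin d)) r0 → segment ℝ p q ⊆ E}
    with hCs
  have hCsE : ∀ x, Cs x ⊆ E := fun x p hp => hp.1
  have hCsc : ∀ x, IsCompact (Cs x) := by
    intro x
    refine hE.of_isClosed_subset ?_ (hCsE x)
    have : Cs x = E ∩ ⋂ (q : EuclideanSpace ℝ (Fin d)) (_ : q ∈ E) (_ : q ∈ ball (x : EuclideanSpace ℝ (Fin d)) r0) (t : ℝ) (_ : t ∈ Icc (0:ℝ) 1),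
        {p | p + t • (q - p) ∈ E} := by
      ext p
      simp only [hCs, Set.mem_ofPred_eq, mem_inter_iff, mem_iInter]
      refine and_congr_right fun _ => forall_congr' fun q => forall_congr' fun _ =>
        forall_congr' fun _ => ?_
      rw [segment_eq_image']
      exact image_subset_iff
    rw [this]
    refine hE.isClosed.inter ?_
    refine isClosed_iInter fun q => isClosed_iInter fun _ => isClosed_iInter fun _ =>
      isClosed_iInter fun t => isClosed_iInter fun _ => ?_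
    exact hE.isClosed.preimage (by fun_prop)
  have hhelly : (⋂ x : Q, convexHull ℝ (Cs x)).Nonempty := by
    apply Convex.helly_theorem_compact' (𝕜 := ℝ) (fun x => convex_convexHull ℝ (Cs x))
      (fun x => compact_hull (hCsc x))
    intro I hI
    have hfin : Module.finrank ℝ (EuclideanSpace ℝ (Fin d)) = d := finrank_euclideanSpace_fin
    rw [hfin] at hI
    obtain ⟨x0, hx0⟩ := hQne
    -- enumerate I
    set f : Fin (d + 1) → Q := fun i =>
      if h : (i : ℕ) < I.card then (I.equivFin.symm ⟨i, h⟩ : I).1 else ⟨x0, hx0⟩ with hf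
    obtain ⟨p, hp, hpf⟩ := hunif (fun i => (f i : EuclideanSpace ℝ (Fin d))) fun i _ => (f i).2
    refine ⟨p, ?_⟩
    rw [mem_iInter₂]
    intro x hx
    apply subset_convexHull
    refine ⟨hp, ?_⟩
    have hj : ((I.equivFin ⟨x, hx⟩ : Fin I.card) : ℕ) < d + 1 :=
      lt_of_lt_of_le (I.equivFin ⟨x, hx⟩).2 hI
    have hfx : f ⟨(I.equivFin ⟨x, hx⟩ : Fin I.card), hj⟩ = x := by
      rw [hf]
      simp
    have := hpf ⟨(I.equivFin ⟨x, hx⟩ : Fin I.card), hj⟩
    rwa [hfx] at this
  obtain ⟨y, hy⟩ := hhelly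
  rw [mem_iInter] at hy
  obtain ⟨D, hD⟩ : ∃ D : ℝ, ∀ p ∈ E, ∀ q ∈ E, dist p q ≤ D :=
    ⟨diam E, fun p hp q hq => dist_le_diam_of_mem hE.isBounded hp hq⟩
  obtain ⟨x0, hx0⟩ := hQne
  have hD0 : 0 ≤ D := le_trans dist_nonneg (hD x0 (hQE hx0) x0 (hQE hx0))
  set δ : ℝ := min (1 / 2) (r0 / (8 * (D + 1))) with hδ
  have hδ0 : 0 < δ := lt_min (by norm_num) (by positivity)
  have hδ1 : δ < 1 := lt_of_le_of_lt (min_le_left _ _) (by norm_num)
  have hmove : ∀ q ∈ E, q ∈ thickening (r0 / 2) Q → ∀ t ∈ Icc (0:ℝ) δ,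
      q + t • (y - q) ∈ E := by
    intro q hq hqN t ht
    rw [mem_thickening_iff] at hqN
    obtain ⟨x, hxQ, hqx⟩ := hqN
    have hmv := (move_hull (hCsE ⟨x, hxQ⟩) (fun p hp q hq hqr => hp.2 q hq hqr) hD
      (hy ⟨x, hxQ⟩)).2 q hq (t / (1 - t))
    have ht1 : 0 < 1 - t := by linarith [ht.2]
    have ht2 : t ≤ 1 / 2 := ht.2.trans (min_le_left _ _)
    have ht3 : t ≤ r0 / (8 * (D + 1)) := ht.2.trans (min_le_right _ _)
    have := hmv (div_nonneg ht.1 ht1.le) (by
      have h1 : t / (1 - t) ≤ 2 * t := by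
        rw [div_le_iff₀ ht1]
        nlinarith [ht.1]
      have h2 : t / (1 - t) * D ≤ 2 * (r0 / (8 * (D + 1))) * D := by gcongr; linarith
      have h3 : 2 * (r0 / (8 * (D + 1))) * D ≤ r0 / 4 := by
        have : 2 * (r0 / (8 * (D + 1))) * D = r0 / 4 * (D / (D + 1)) := by field_simp; ring
        rw [this]
        have : D / (D + 1) ≤ 1 := by rw [div_le_one (by linarith)]; linarith
        nlinarith
      show dist q x + t / (1 - t) * D < r0
      linarith)
    have e : (1 + t / (1 - t))⁻¹ • (q + (t / (1 - t)) • y) = q + t • (y - q) := by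
      have h1 : (1 + t / (1 - t))⁻¹ = 1 - t := by
        field_simp
        simp
      rw [h1, smul_add, smul_smul, mul_div_cancel₀ _ ht1.ne', sub_smul, one_smul, smul_sub]
      abel
    rwa [e] at this
  refine ⟨y, fun _ => convexHull_mono (hCsE ⟨x0, hx0⟩) (hy ⟨x0, hx0⟩), fun h => ?_, ?_⟩
  · rw [h] at hx0
    exact absurd hx0 (notMem_empty x0)
  · intro C hCc hCcl hyC
    apply preconnected_inter hE hconn.isPreconnected _ hCc hCcl hyC
    apply local_joined (N := thickening (r0 / 2) Q) hδ0 hδ1 hE.isClosed isOpen_thickening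
    · intro x hx hxN
      exact hconvQ x hx fun hxQ => hxN (self_subset_thickening (by positivity) Q hxQ)
    · exact hmove

end Pool.Agent.Results.MP_ad2f8c_co.ClearVisibility
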